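import Pool.Agent.H89.SG.GapT
import Pool.Agent.H69.CU.BadS

/-!
[H89 SG BAD2] rough numbers which are not cyclic in `(x, x + h + g]`, `g ≤ h ≤ x`.
-/

namespace Pool.Agent.H89.CY

open Finset Classical Filter

theorem NR_sub (z x h g : ℕ) (hg : g ≤ h) :
    (NR z x (h + g)) ⊆ ((Ioc x (x + h)).filter fun m => ¬ Pool.Agent.H69.CY.IsCyclicNumber m ∧
      Pool.Agent.H69.CP.Rough (z : ℝ) m) ∪ ((Ioc (x + h) (x + h + h)).filter fun m =>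
      ¬ Pool.Agent.H69.CY.IsCyclicNumber m ∧ Pool.Agent.H69.CP.Rough (z : ℝ) m) := by
  intro m hm
  unfold NR at hm
  rw [mem_filter, mem_Ioc] at hm
  obtain ⟨⟨h1, h2⟩, h3, h4⟩ := hm
  have h5 : ¬ Pool.Agent.H69.CY.IsCyclicNumber m := fun h => h3 h.2
  have h6 : Pool.Agent.H69.CP.Rough (z : ℝ) m := fun p hp hpm => by exact_mod_cast h4 p hp hpm
  rw [mem_union, mem_filter, mem_filter, mem_Ioc, mem_Ioc]
  rcases le_or_gt m (x + h) with h7 | h7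
  · left
    exact ⟨⟨h1, h7⟩, h5, h6⟩
  · right
    exact ⟨⟨h7, by omega⟩, h5, h6⟩

theorem bad2 (δ : ℝ) (hδ : 0 < δ) (hδ1 : δ ≤ 1 / 10) : ∃ C W0 : ℝ, 0 < C ∧ 1 ≤ W0 ∧ ∃ x0 : ℕ, 20 ≤ x0 ∧
    ∀ x h g z : ℕ, x0 ≤ x → (x : ℝ) ^ (2 / 5 + δ) ≤ h → h ≤ x → g ≤ h → W0 ≤ z →
      ((NR z x (h + g)).card : ℝ) ≤ C * Real.log x ^ 2 * h / z + 2 * h * (x : ℝ) ^ (-δ / 16) := by
  obtain ⟨C, W0, hC, hW, x0, hx0, H⟩ := Pool.Agent.H69.CU.bad_s (δ / 2) (by positivity) (by linarith)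
  have hev : ∀ᶠ x : ℕ in atTop, (2 : ℝ) ≤ (x : ℝ) ^ (δ / 2) :=
    ((tendsto_rpow_atTop (show 0 < δ / 2 by positivity)).comp tendsto_natCast_atTop_atTop).eventually_ge_atTop 2
  obtain ⟨x1, hx1⟩ := eventually_atTop.1 hev
  refine ⟨5 * C, W0, by positivity, hW, max x0 x1, hx0.trans (le_max_left _ _), ?_⟩
  intro x h g z hx hxh hhx hgh hz
  have hxa : x0 ≤ x := (le_max_left _ _).trans hx
  have h2 := hx1 x ((le_max_right _ _).trans hx)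
  have hx20 : (20 : ℝ) ≤ x := by exact_mod_cast hx0.trans hxa
  have hxp : (0 : ℝ) < x := by linarith
  have hhR : (h : ℝ) ≤ x := by exact_mod_cast hhx
  have hh0 : (0 : ℝ) ≤ h := Nat.cast_nonneg _
  have hz0 : (0 : ℝ) < z := by linarith
  have hlog : 0 ≤ Real.log x := Real.log_nonneg (by linarith)
  have a1 : (x : ℝ) ^ (2 / 5 + δ / 2) ≤ h :=
    (Real.rpow_le_rpow_of_exponent_le (by linarith) (by linarith)).trans hxh
  have a2 : ((x + h : ℕ) : ℝ) ^ (2 / 5 + δ / 2) ≤ h := by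
    have e1 : ((x + h : ℕ) : ℝ) ≤ 2 * x := by push_cast; linarith
    have e2 : ((x + h : ℕ) : ℝ) ^ (2 / 5 + δ / 2) ≤ (2 * x) ^ (2 / 5 + δ / 2) :=
      Real.rpow_le_rpow (Nat.cast_nonneg _) e1 (by positivity)
    have e3 : (2 * (x : ℝ)) ^ (2 / 5 + δ / 2) = 2 ^ (2 / 5 + δ / 2) * (x : ℝ) ^ (2 / 5 + δ / 2) :=
      Real.mul_rpow (by norm_num) hxp.le
    have e4 : (2 : ℝ) ^ (2 / 5 + δ / 2) ≤ 2 := by
      have := Real.rpow_le_rpow_of_exponent_le (show (1 : ℝ) ≤ 2 by norm_num) (show 2 / 5 + δ / 2 ≤ 1 by linarith)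
      rwa [Real.rpow_one] at this
    have e5 : (x : ℝ) ^ (2 / 5 + δ) = (x : ℝ) ^ (δ / 2) * (x : ℝ) ^ (2 / 5 + δ / 2) := by
      rw [← Real.rpow_add hxp]
      congr 1
      ring
    have e6 : 0 ≤ (x : ℝ) ^ (2 / 5 + δ / 2) := by positivity
    calc ((x + h : ℕ) : ℝ) ^ (2 / 5 + δ / 2) ≤ 2 ^ (2 / 5 + δ / 2) * (x : ℝ) ^ (2 / 5 + δ / 2) := e2.trans e3.le
      _ ≤ (x : ℝ) ^ (δ / 2) * (x : ℝ) ^ (2 / 5 + δ / 2) := by
          apply mul_le_mul_of_nonneg_right (e4.trans h2) e6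
      _ = (x : ℝ) ^ (2 / 5 + δ) := e5.symm
      _ ≤ h := hxh
  have b1 := H x h hxa a1 hhx z hz
  have b2 := H (x + h) h (by omega) a2 (by omega) z hz
  have c1 : ((NR z x (h + g)).card : ℝ) ≤ (((Ioc x (x + h)).filter fun m => ¬ Pool.Agent.H69.CY.IsCyclicNumber m ∧
      Pool.Agent.H69.CP.Rough (z : ℝ) m).card : ℝ) + (((Ioc (x + h) (x + h + h)).filter fun m =>
      ¬ Pool.Agent.H69.CY.IsCyclicNumber m ∧ Pool.Agent.H69.CP.Rough (z : ℝ) m).card : ℝ) := by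
    have := (card_le_card (NR_sub z x h g hgh)).trans (card_union_le _ _)
    exact_mod_cast this
  have d1 : (x : ℝ) ^ (-(δ / 2) / 8) = (x : ℝ) ^ (-δ / 16) := by congr 1; ring
  have d2 : ((x + h : ℕ) : ℝ) ^ (-(δ / 2) / 8) ≤ (x : ℝ) ^ (-δ / 16) := by
    rw [← d1]
    apply Real.rpow_le_rpow_of_nonpos hxp
    · push_cast; linarith
    · linarith
  have d3 : Real.log ((x + h : ℕ) : ℝ) ≤ 2 * Real.log x := by
    have e1 : ((x + h : ℕ) : ℝ) ≤ (x : ℝ) ^ 2 := by push_cast; nlinarith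
    have e2 := Real.log_le_log (by push_cast; linarith) e1
    rw [Real.log_pow] at e2
    exact_mod_cast e2
  have d4 : 0 ≤ Real.log ((x + h : ℕ) : ℝ) := Real.log_nonneg (by push_cast; linarith)
  have d5 : Real.log ((x + h : ℕ) : ℝ) ^ 2 ≤ 4 * Real.log x ^ 2 := by nlinarith
  have d6 : C * Real.log ((x + h : ℕ) : ℝ) ^ 2 * h / z ≤ C * (4 * Real.log x ^ 2) * h / z := by gcongr
  have d7 : (h : ℝ) * ((x + h : ℕ) : ℝ) ^ (-(δ / 2) / 8) ≤ h * (x : ℝ) ^ (-δ / 16) := by gcongr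
  rw [d1] at b1
  have d8 : 5 * C * Real.log x ^ 2 * h / z + 2 * h * (x : ℝ) ^ (-δ / 16) =
      (C * Real.log x ^ 2 * h / z + h * (x : ℝ) ^ (-δ / 16)) + (C * (4 * Real.log x ^ 2) * h / z +
        h * (x : ℝ) ^ (-δ / 16)) := by ring
  rw [d8]
  linarith

end Pool.Agent.H89.CY
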