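import Pool.Agent.H89.CY.Sv

/-!
[H89 SG SVT] `sv2` with the offset e in place of 1 (e arbitrary). J a b = {j < y : no prime of (w, y] divides 1 + D (a + b + j)}; for each a there is an
offset b with b + y <= k and |J a b| >= M. Q = product of the primes in (w, y].
Let t < T be bad (for all j < k there is p in PR w z with p | 1 + D (t + j)); take b for a = t and put t' = t + b < T + k.
Then t' lies in G = {t' < T + k : for all j < y there is p in PR w z, p | 1 + D (t' + j), and |J t' 0| >= M}.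
So the number of bad t is at most (k + 1) |G| (union over b <= k of the translates). |G|: sum over the residues a' modulo Q with
|J a' 0| >= M (J depends on t' modulo Q only) of the bound of `sv_one` of Sv.lean with y for k and T + k for T
(`sv_one` is private there: copy the file; its hypothesis concerns the single residue a' only).
-/

namespace Pool.Agent.H89.CY

open Finset Classical

private theorem svt_mem {a b p : ℕ} (h : p ∈ PR a b) : a < p ∧ p ≤ b ∧ p.Prime := by
  unfold PR at h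
  rw [mem_filter, mem_Icc] at h
  exact ⟨by omega, h.1.2, h.2⟩

private theorem svt_Q {w k p : ℕ} (hp : p.Prime) (h : k < p) : ¬ p ∣ ∏ q ∈ PR w k, q := by
  intro hd
  obtain ⟨q, hq, hpq⟩ := (hp.prime.dvd_finsetProd_iff _).1 hd
  have h1 := svt_mem hq
  have h2 := Nat.le_of_dvd h1.2.2.pos hpq
  omega

private theorem svt_D {w p : ℕ} (hp : p.Prime) (h : w < p) : ¬ p ∣ primorial w := by
  intro hd
  unfold primorial at hd
  obtain ⟨q, hq, hpq⟩ := (hp.prime.dvd_finsetProd_iff _).1 hd
  have h1 := mem_filter.1 hq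
  have h2 := Nat.le_of_dvd h1.2.pos hpq
  have h3 := mem_range.1 h1.1
  omega

/-- a solution of the congruence -/
private theorem svt_ex {p X Y : ℕ} (hp : p.Prime) (hY : ¬ p ∣ Y) : ∃ s, p ∣ X + Y * s := by
  have : Fact p.Prime := ⟨hp⟩
  have hY0 : (Y : ZMod p) ≠ 0 := by
    intro h
    exact hY ((ZMod.natCast_eq_zero_iff Y p).1 h)
  refine ⟨(-(X : ZMod p) * (Y : ZMod p)⁻¹).val, ?_⟩
  rw [← ZMod.natCast_eq_zero_iff]
  push_cast
  rw [ZMod.natCast_val, ZMod.cast_id', id]
  field_simp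
  ring

/-- two solutions are congruent -/
private theorem svt_un {p X Y s s' : ℕ} (hp : p.Prime) (hY : ¬ p ∣ Y) (h : p ∣ X + Y * s) (h' : p ∣ X + Y * s') :
    s ≡ s' [MOD p] := by
  have : Fact p.Prime := ⟨hp⟩
  rw [← ZMod.natCast_eq_zero_iff] at h h'
  rw [← ZMod.natCast_eq_natCast_iff]
  have hY0 : (Y : ZMod p) ≠ 0 := by
    intro h
    exact hY ((ZMod.natCast_eq_zero_iff Y p).1 h)
  push_cast at h h'
  have h1 : (Y : ZMod p) * ((s : ZMod p) - s') = 0 := by linear_combination h - h'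
  rcases mul_eq_zero.1 h1 with h2 | h2
  · exact absurd h2 hY0
  · exact sub_eq_zero.1 h2

/-- different numbers have different solutions -/
private theorem svt_inj {e p D Q a i j s s' k : ℕ} (hp : p.Prime) (hD : ¬ p ∣ D) (hk : k < p) (hi : i < k) (hj : j < k)
    (h : p ∣ e + D * (a + i) + D * Q * s) (h' : p ∣ e + D * (a + j) + D * Q * s') (hs : s ≡ s' [MOD p]) : i = j := by
  have : Fact p.Prime := ⟨hp⟩
  rw [← ZMod.natCast_eq_zero_iff] at h h'
  rw [← ZMod.natCast_eq_natCast_iff] at hs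
  have hD0 : (D : ZMod p) ≠ 0 := by
    intro h
    exact hD ((ZMod.natCast_eq_zero_iff D p).1 h)
  push_cast at h h'
  have h1 : (D : ZMod p) * ((i : ZMod p) - j) = 0 := by
    rw [hs] at h
    linear_combination h - h'
  rcases mul_eq_zero.1 h1 with h2 | h2
  · exact absurd h2 hD0
  · have h3 : (i : ZMod p) = j := sub_eq_zero.1 h2
    rw [ZMod.natCast_eq_natCast_iff] at h3
    have h4 : i % p = j % p := h3
    rw [Nat.mod_eq_of_lt (by omega), Nat.mod_eq_of_lt (by omega)] at h4
    exact h4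

private theorem svt_prod (k z : ℕ) : 0 ≤ 1 - ∏ p ∈ PR k z, (1 - 1 / (p : ℝ)) ∧
    1 - ∏ p ∈ PR k z, (1 - 1 / (p : ℝ)) ≤ 1 := by
  have h : ∀ p ∈ PR k z, 0 ≤ 1 - 1 / (p : ℝ) ∧ 1 - 1 / (p : ℝ) ≤ 1 := by
    intro p hp
    have h1 : (1 : ℝ) ≤ p := by exact_mod_cast (svt_mem hp).2.2.one_le
    have h2 : 1 / (p : ℝ) ≤ 1 := by
      rw [div_le_one (by linarith)]
      exact h1
    have h3 : 0 ≤ 1 / (p : ℝ) := by positivity
    exact ⟨by linarith, by linarith⟩
  have h1 : ∏ p ∈ PR k z, (1 - 1 / (p : ℝ)) ≤ 1 := prod_le_one (fun p hp => (h p hp).1) fun p hp => (h p hp).2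
  have h2 : 0 ≤ ∏ p ∈ PR k z, (1 - 1 / (p : ℝ)) := prod_nonneg fun p hp => (h p hp).1
  exact ⟨by linarith, by linarith⟩

private theorem svt_one (e w k z D T r M Q a : ℕ) (hwk : w < k) (hD : D = primorial w) (hQ : Q = ∏ p ∈ PR w k, p)
    (hJ : M ≤ ((range k).filter (fun j => ∀ p ∈ PR w k, ¬ p ∣ e + D * (a + j))).card) :
    ((((range T).filter (fun t => ∀ j < k, ∃ p ∈ PR w z, p ∣ e + D * (t + j))).filter
      (fun t => t % Q = a)).card : ℝ) ≤
      ((T / Q + 1 : ℕ) : ℝ) * ((1 - ∏ p ∈ PR k z, (1 - 1 / (p : ℝ))) ^ M +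
        2 * Real.exp (9 * (k * ∑ p ∈ PR k z, 1 / (p : ℝ))) / 3 ^ r)
      + 4 * (3 * ((z : ℝ) * k + 1)) ^ r := by
  have hQ0 : 0 < Q := by
    rw [hQ]
    exact prod_pos fun p hp => (svt_mem hp).2.2.pos
  set J := (range k).filter (fun j => ∀ p ∈ PR w k, ¬ p ∣ e + D * (a + j)) with hJdef
  -- the residues
  have hDp : ∀ p ∈ PR k z, ¬ p ∣ D := fun p hp => by
    have h := svt_mem hp
    rw [hD]
    exact svt_D h.2.2 (by omega)
  have hDQ : ∀ p ∈ PR k z, ¬ p ∣ D * Q := fun p hp hd => by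
    rcases (svt_mem hp).2.2.dvd_mul.1 hd with h | h
    · exact hDp p hp h
    · rw [hQ] at h
      exact svt_Q (svt_mem hp).2.2 (svt_mem hp).1 h
  have hex : ∀ p j : ℕ, ∃ s, p ∈ PR k z → p ∣ e + D * (a + j) + D * Q * s := by
    intro p j
    by_cases hp : p ∈ PR k z
    · obtain ⟨s, hs⟩ := svt_ex (X := e + D * (a + j)) (svt_mem hp).2.2 (hDQ p hp)
      exact ⟨s, fun _ => hs⟩
    · exact ⟨0, fun h => absurd h hp⟩
  choose ρ hρ using hex
  have hcore := core (PR k z) J ρ (fun p hp => (svt_mem hp).2.2) (by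
    intro p hp i hi j hj hij
    exact svt_inj (svt_mem hp).2.2 (hDp p hp) (svt_mem hp).1 (mem_range.1 (mem_filter.1 hi).1)
      (mem_range.1 (mem_filter.1 hj).1) (hρ p i hp) (hρ p j hp) hij) (T / Q + 1) r (Nat.le_add_left 1 _)
  -- the injection
  have hle : (((range T).filter (fun t => ∀ j < k, ∃ p ∈ PR w z, p ∣ e + D * (t + j))).filter
      (fun t => t % Q = a)).card ≤ ((range (T / Q + 1)).filter (fun s => Hit (PR k z) J ρ s)).card := by
    refine card_le_card_of_injOn (fun t => t / Q) ?_ ?_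
    · intro t ht
      rw [mem_coe, mem_filter, mem_filter, mem_range] at ht
      obtain ⟨⟨htT, hG⟩, hta⟩ := ht
      rw [mem_coe, mem_filter, mem_range]
      refine ⟨Nat.lt_succ_of_le (Nat.div_le_div_right htT.le), ?_⟩
      intro j hj
      have hj1 := mem_filter.1 hj
      obtain ⟨p, hp, hd⟩ := hG j (mem_range.1 hj1.1)
      have hpm := svt_mem hp
      have ht2 : t = a + Q * (t / Q) := by
        rw [← hta]
        exact (Nat.mod_add_div t Q).symm
      have hd2 : p ∣ e + D * (a + j) + D * Q * (t / Q) := by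
        have ee : e + D * (a + j) + D * Q * (t / Q) = e + D * (a + Q * (t / Q) + j) := by ring
        rw [ee, ← ht2]
        exact hd
      by_cases hpk : p ≤ k
      · exfalso
        have hpPR : p ∈ PR w k := by
          unfold PR
          rw [mem_filter, mem_Icc]
          exact ⟨⟨by omega, hpk⟩, hpm.2.2⟩
        have hpQ : p ∣ Q := by
          rw [hQ]
          exact dvd_prod_of_mem (fun p => p) hpPR
        have h3 : p ∣ D * Q * (t / Q) := Dvd.dvd.mul_right (Dvd.dvd.mul_left hpQ D) _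
        exact hj1.2 p hpPR ((Nat.dvd_add_left h3).1 hd2)
      · have hpR : p ∈ PR k z := by
          unfold PR
          rw [mem_filter, mem_Icc]
          exact ⟨⟨by omega, hpm.2.1⟩, hpm.2.2⟩
        exact ⟨p, hpR, svt_un hpm.2.2 (hDQ p hpR) hd2 (hρ p j hpR)⟩
    · intro t ht t' ht' htt
      rw [mem_coe, mem_filter] at ht ht'
      have h1 := Nat.mod_add_div t Q
      have h2 := Nat.mod_add_div t' Q
      have h3 : t / Q = t' / Q := htt
      rw [ht.2] at h1
      rw [ht'.2, ← h3] at h2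
      exact h1.symm.trans h2
  have hle' : ((((range T).filter (fun t => ∀ j < k, ∃ p ∈ PR w z, p ∣ e + D * (t + j))).filter
      (fun t => t % Q = a)).card : ℝ) ≤ (((range (T / Q + 1)).filter (fun s => Hit (PR k z) J ρ s)).card : ℝ) := by
    exact_mod_cast hle
  refine (hle'.trans hcore).trans ?_
  -- monotonicity
  have hP := svt_prod k z
  have hJk : J.card ≤ k := by
    refine (card_filter_le _ _).trans ?_
    rw [card_range]
  have hRz : (PR k z).card ≤ z := by
    unfold PR
    refine (card_filter_le _ _).trans ?_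
    rw [Nat.card_Icc]
    omega
  have hs0 : 0 ≤ ∑ p ∈ PR k z, 1 / (p : ℝ) := sum_nonneg fun p _ => by positivity
  have m1 : (1 - ∏ p ∈ PR k z, (1 - 1 / (p : ℝ))) ^ J.card ≤ (1 - ∏ p ∈ PR k z, (1 - 1 / (p : ℝ))) ^ M :=
    pow_le_pow_of_le_one hP.1 hP.2 hJ
  have hJk' : (J.card : ℝ) ≤ k := by exact_mod_cast hJk
  have hRz' : ((PR k z).card : ℝ) ≤ z := by exact_mod_cast hRz
  have m2 : 2 * Real.exp (9 * (J.card * ∑ p ∈ PR k z, 1 / (p : ℝ))) / 3 ^ r ≤
      2 * Real.exp (9 * (k * ∑ p ∈ PR k z, 1 / (p : ℝ))) / 3 ^ r := by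
    refine div_le_div_of_nonneg_right ?_ (by positivity)
    refine mul_le_mul_of_nonneg_left (Real.exp_le_exp.2 ?_) (by norm_num)
    refine mul_le_mul_of_nonneg_left ?_ (by norm_num)
    exact mul_le_mul_of_nonneg_right hJk' hs0
  have m3 : 4 * (3 * (((PR k z).card : ℝ) * J.card + 1)) ^ r ≤ 4 * (3 * ((z : ℝ) * k + 1)) ^ r := by
    refine mul_le_mul_of_nonneg_left ?_ (by norm_num)
    refine pow_le_pow_left₀ (by positivity) ?_ r
    have h1 : ((PR k z).card : ℝ) * J.card ≤ (z : ℝ) * k :=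
      mul_le_mul hRz' hJk' (Nat.cast_nonneg _) (Nat.cast_nonneg _)
    linarith
  exact add_le_add (mul_le_mul_of_nonneg_left (add_le_add m1 m2) (Nat.cast_nonneg _)) m3

theorem svT (e : ℕ) (w y k z D T r M : ℕ) (hwy : w < y) (hD : D = primorial w)
    (hJ : ∀ a : ℕ, ∃ b : ℕ, b + y ≤ k ∧
      M ≤ ((range y).filter (fun j => ∀ p ∈ PR w y, ¬ p ∣ e + D * (a + b + j))).card) :
    (((range T).filter (fun t => ∀ j < k, ∃ p ∈ PR w z, p ∣ e + D * (t + j))).card : ℝ) ≤
      (k + 1) * (((T : ℝ) + k + (∏ p ∈ PR w y, p : ℕ)) * ((1 - ∏ p ∈ PR y z, (1 - 1 / (p : ℝ))) ^ M +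
        2 * Real.exp (9 * (y * ∑ p ∈ PR y z, 1 / (p : ℝ))) / 3 ^ r)
      + 4 * (∏ p ∈ PR w y, p : ℕ) * (3 * ((z : ℝ) * y + 1)) ^ r) := by
  have hP := svt_prod y z
  have hQ0 : 0 < ∏ p ∈ PR w y, p := prod_pos fun p hp => (svt_mem hp).2.2.pos
  have hE : 0 ≤ (1 - ∏ p ∈ PR y z, (1 - 1 / (p : ℝ))) ^ M +
      2 * Real.exp (9 * (y * ∑ p ∈ PR y z, 1 / (p : ℝ))) / 3 ^ r :=
    add_nonneg (pow_nonneg hP.1 M) (by positivity)
  have hF : 0 ≤ 4 * (3 * ((z : ℝ) * y + 1)) ^ r := by positivity
  set Q : ℕ := ∏ p ∈ PR w y, p with hQ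
  set E : ℝ := (1 - ∏ p ∈ PR y z, (1 - 1 / (p : ℝ))) ^ M +
      2 * Real.exp (9 * (y * ∑ p ∈ PR y z, 1 / (p : ℝ))) / 3 ^ r with hEdef
  set F : ℝ := 4 * (3 * ((z : ℝ) * y + 1)) ^ r with hFdef
  -- the good translates
  set G : Finset ℕ := ((range (T + k)).filter (fun t => ∀ j < y, ∃ p ∈ PR w z, p ∣ e + D * (t + j))).filter
    (fun t => M ≤ ((range y).filter (fun j => ∀ p ∈ PR w y, ¬ p ∣ e + D * (t + j))).card) with hG
  -- dependence on the residue only
  have hres : ∀ t, ((range y).filter (fun j => ∀ p ∈ PR w y, ¬ p ∣ e + D * (t + j))) =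
      ((range y).filter (fun j => ∀ p ∈ PR w y, ¬ p ∣ e + D * (t % Q + j))) := by
    intro t
    refine filter_congr fun j _ => forall₂_congr fun p hp => not_congr ?_
    have hpQ : p ∣ Q := by
      rw [hQ]
      exact dvd_prod_of_mem (fun p => p) hp
    have ee : e + D * (t + j) = e + D * (t % Q + j) + D * (Q * (t / Q)) := by
      conv_lhs => rw [← Nat.mod_add_div t Q]
      ring
    rw [ee]
    exact Nat.dvd_add_left (Dvd.dvd.mul_left (Dvd.dvd.mul_right hpQ _) _)
  -- one residue class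
  have hone : ∀ a ∈ range Q, ((G.filter (fun t => t % Q = a)).card : ℝ) ≤
      (((T + k) / Q + 1 : ℕ) : ℝ) * E + F := by
    intro a ha
    have haQ := mem_range.1 ha
    by_cases hM : M ≤ ((range y).filter (fun j => ∀ p ∈ PR w y, ¬ p ∣ e + D * (a + j))).card
    · refine le_trans ?_ (svt_one e w y z D (T + k) r M Q a hwy hD hQ hM)
      have : G.filter (fun t => t % Q = a) ⊆ (((range (T + k)).filter
          (fun t => ∀ j < y, ∃ p ∈ PR w z, p ∣ e + D * (t + j))).filter (fun t => t % Q = a)) := by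
        refine filter_subset_filter _ ?_
        rw [hG]
        exact filter_subset _ _
      exact_mod_cast card_le_card this
    · have : G.filter (fun t => t % Q = a) = ∅ := by
        rw [filter_eq_empty_iff]
        intro t ht hta
        rw [hG, mem_filter] at ht
        have h1 := ht.2
        rw [hres t, hta] at h1
        exact hM h1
      rw [this, card_empty, Nat.cast_zero]
      have : (0 : ℝ) ≤ (((T + k) / Q + 1 : ℕ) : ℝ) := Nat.cast_nonneg _
      have := mul_nonneg this hE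
      linarith
  have hfib := card_eq_sum_card_fiberwise (f := fun t => t % Q) (s := G) (t := range Q)
    (fun t _ => mem_coe.2 (mem_range.2 (Nat.mod_lt t hQ0)))
  have hGle : (G.card : ℝ) ≤ ((T : ℝ) + k + (Q : ℕ)) * E + (Q : ℕ) * F := by
    have h1 : (G.card : ℝ) ≤ ∑ a ∈ range Q, ((((T + k) / Q + 1 : ℕ) : ℝ) * E + F) := by
      rw [hfib]
      push_cast
      refine sum_le_sum fun a ha => ?_
      have h2 := hone a ha
      push_cast at h2
      exact h2
    refine h1.trans ?_
    rw [sum_const, card_range, nsmul_eq_mul]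
    have h3 : (Q : ℝ) * (((T + k) / Q + 1 : ℕ) : ℝ) ≤ T + k + Q := by
      have h4 : Q * ((T + k) / Q + 1) ≤ T + k + Q := by
        have h5 := Nat.mul_div_le (T + k) Q
        rw [mul_add, mul_one]
        omega
      exact_mod_cast h4
    have h6 := mul_le_mul_of_nonneg_right h3 hE
    linarith
  -- the translates cover
  have hcov : ((range T).filter (fun t => ∀ j < k, ∃ p ∈ PR w z, p ∣ e + D * (t + j))).card ≤
      (k + 1) * G.card := by
    have hsub : (range T).filter (fun t => ∀ j < k, ∃ p ∈ PR w z, p ∣ e + D * (t + j)) ⊆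
        (range (k + 1)).biUnion (fun b => (range T).filter (fun t => t + b ∈ G)) := by
      intro t ht
      rw [mem_filter, mem_range] at ht
      obtain ⟨htT, hbad⟩ := ht
      obtain ⟨b, hb, hbM⟩ := hJ t
      rw [mem_biUnion]
      refine ⟨b, mem_range.2 (by omega), ?_⟩
      rw [mem_filter, mem_range]
      refine ⟨htT, ?_⟩
      rw [hG, mem_filter, mem_filter, mem_range]
      refine ⟨⟨by omega, fun j hj => ?_⟩, hbM⟩
      have h1 := hbad (b + j) (by omega)
      rw [← add_assoc] at h1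
      exact h1
    refine (card_le_card hsub).trans (card_biUnion_le.trans ?_)
    calc ∑ b ∈ range (k + 1), ((range T).filter (fun t => t + b ∈ G)).card
        ≤ ∑ _b ∈ range (k + 1), G.card := by
          refine sum_le_sum fun b _ => ?_
          refine card_le_card_of_injOn (fun t => t + b) ?_ ?_
          · intro t ht
            rw [mem_coe, mem_filter] at ht
            exact ht.2
          · intro t _ t' _ h
            exact Nat.add_right_cancel h
      _ = (k + 1) * G.card := by rw [sum_const, card_range, smul_eq_mul]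
  have hcov' : (((range T).filter (fun t => ∀ j < k, ∃ p ∈ PR w z, p ∣ e + D * (t + j))).card : ℝ) ≤
      ((k : ℝ) + 1) * G.card := by exact_mod_cast hcov
  refine hcov'.trans ?_
  refine mul_le_mul_of_nonneg_left (hGle.trans (le_of_eq ?_)) (by positivity)
  rw [hFdef]
  ring

end Pool.Agent.H89.CY
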