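import Pool.Agent.H89.CY.GapP
import Pool.Agent.H89.SG.SvT

/-!
[H89 SG GAPT] the counting lemma in a short interval: `n` in `P` with `x < c n ≤ x + h`.
-/

namespace Pool.Agent.H89.CY

open Finset Classical

/-- the index set -/
def WT (P : ℕ → Prop) (x h : ℕ) : Set ℕ := {n | 2 ≤ n ∧ P n ∧ x < c n ∧ c n ≤ x + h}

/-- numbers in `(x, x + h]` which are not cyclic and have no prime factor `≤ z` -/
noncomputable def NR (z x h : ℕ) : Finset ℕ :=
  (Ioc x (x + h)).filter (fun m => ¬ Cyc m ∧ ∀ p : ℕ, p.Prime → p ∣ m → z < p)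

theorem WT_finite (P : ℕ → Prop) (x h : ℕ) : (WT P x h).Finite := by
  apply (Set.finite_Iic (x + h)).subset
  intro n hn
  exact (c_ge n (by have := hn.1; omega)).trans hn.2.2.2

theorem cntT (P : ℕ → Prop) (D k x h : ℕ) (hD : 2 ≤ D)
    (hP : ∀ n, 2 ≤ n → P n → x < c n → c n + (k + 1) * D ≤ c (n + 1)) :
    (WT P x h).ncard ≤
      ((range (h / D + 2)).filter (fun s => ∀ j < k, ¬ Cyc ((1 + D * (x / D + 1)) + D * (s + j)))).card := by
  rw [← Set.ncard_coe_finset]
  refine Set.ncard_le_ncard_of_injOn (fun n => c n / D - x / D) ?_ ?_ (finite_toSet _)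
  · rintro n ⟨hn, hf, hAn, hX⟩
    have h1 := hP n hn hf hAn
    have hD0 : 0 < D := by omega
    have g1 : x / D ≤ c n / D := Nat.div_le_div_right hAn.le
    have g2 : c n / D ≤ (x + h) / D := Nat.div_le_div_right hX
    have g3 : (x + h) / D ≤ x / D + h / D + 1 := by
      rw [← Nat.lt_succ_iff, Nat.div_lt_iff_lt_mul hD0]
      have a1 := Nat.lt_mul_div_succ x hD0
      have a2 := Nat.lt_mul_div_succ h hD0
      have a3 : (x / D + h / D + 1).succ * D = D * (x / D + 1) + D * (h / D + 1) := by
        rw [Nat.succ_eq_add_one]; ring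
      rw [a3]
      omega
    simp only [coe_filter, mem_range, Set.mem_setOf_eq]
    refine ⟨by omega, ?_⟩
    intro j hj
    have h2 : D * (c n / D) ≤ c n := Nat.mul_div_le (c n) D
    have h3 : c n < D * (c n / D) + D := by
      have := Nat.lt_mul_div_succ (c n) (show 0 < D by omega)
      rw [Nat.mul_add, Nat.mul_one] at this
      exact this
    have h4 : 1 + D * (x / D + 1) + D * (c n / D - x / D + j) = 1 + (D * (c n / D) + D + D * j) := by
      have h5 : c n / D = x / D + (c n / D - x / D) := by omega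
      calc 1 + D * (x / D + 1) + D * (c n / D - x / D + j)
          = 1 + (D * (x / D + (c n / D - x / D)) + D + D * j) := by ring
        _ = 1 + (D * (c n / D) + D + D * j) := by rw [← h5]
    have h5 : D * j + D ≤ D * k := by
      have : D * (j + 1) ≤ D * k := Nat.mul_le_mul_left D hj
      rw [Nat.mul_add, Nat.mul_one] at this
      exact this
    have h6 : (k + 1) * D = D * k + D := by ring
    apply no_cyc n _ (by omega)
    · rw [h4]
      omega
    · rw [h4]
      omega
  · rintro n ⟨hn, hf, hAn, _⟩ m ⟨hm, hfm, hAm, _⟩ h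
    have g1 : x / D ≤ c n / D := Nat.div_le_div_right hAn.le
    have g2 : x / D ≤ c m / D := Nat.div_le_div_right hAm.le
    have h' : c n / D = c m / D := by
      simp only at h
      omega
    have key : ∀ a b : ℕ, 2 ≤ a → P a → x < c a → a < b → c a / D < c b / D := by
      intro a b ha hPa hxa hab
      have h1 := hP a ha hPa hxa
      have h2 : c (a + 1) ≤ c b := by
        rcases Nat.lt_or_ge (a + 1) b with h | h
        · exact (c_lt (a + 1) b (by omega) h).le
        · have : a + 1 = b := by omega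
          rw [this]
      have h3 : c a + D ≤ c b := by nlinarith
      have hD0 : 0 < D := by omega
      calc c a / D < c a / D + 1 := Nat.lt_succ_self _
        _ = (c a + D) / D := (Nat.add_div_right (c a) hD0).symm
        _ ≤ c b / D := Nat.div_le_div_right h3
    rcases Nat.lt_trichotomy n m with h1 | h1 | h1
    · have := key n m hn hf hAn h1
      omega
    · exact h1
    · have := key m n hm hfm hAm h1
      omega

theorem two_setsT (w k z D x h : ℕ) (hD : D = primorial w) :
    ((range (h / D + 2)).filter (fun s => ∀ j < k, ¬ Cyc ((1 + D * (x / D + 1)) + D * (s + j)))).card ≤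
      ((range (h / D + 2)).filter (fun s => ∀ j < k, ∃ p ∈ PR w z, p ∣ (1 + D * (x / D + 1)) + D * (s + j))).card +
      k * (NR z x (h + ((k + 1) * D + 1))).card := by
  have hD0 : 0 < D := by rw [hD]; exact primorial_pos w
  have h1 : (range (h / D + 2)).filter (fun s => ∀ j < k, ¬ Cyc ((1 + D * (x / D + 1)) + D * (s + j))) ⊆
      (((range (h / D + 2)).filter (fun s => ∀ j < k, ∃ p ∈ PR w z, p ∣ (1 + D * (x / D + 1)) + D * (s + j))) ∪
      (range k).biUnion (fun j => (range (h / D + 2)).filter
        (fun s => (1 + D * (x / D + 1)) + D * (s + j) ∈ NR z x (h + ((k + 1) * D + 1))))) := by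
    intro s hs
    rw [mem_filter, mem_range] at hs
    obtain ⟨hs1, hs2⟩ := hs
    rw [mem_union]
    by_cases h : ∀ j < k, ∃ p ∈ PR w z, p ∣ (1 + D * (x / D + 1)) + D * (s + j)
    · left
      rw [mem_filter, mem_range]
      exact ⟨hs1, h⟩
    · right
      push Not at h
      obtain ⟨j, hj, hp⟩ := h
      rw [mem_biUnion]
      refine ⟨j, mem_range.2 hj, ?_⟩
      rw [mem_filter, mem_range]
      refine ⟨hs1, ?_⟩
      unfold NR
      rw [mem_filter, mem_Ioc]
      refine ⟨⟨?_, ?_⟩, hs2 j hj, ?_⟩
      · have := Nat.lt_mul_div_succ x hD0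
        have h3 : 0 ≤ D * (s + j) := Nat.zero_le _
        omega
      · have a1 := Nat.mul_div_le x D
        have a2 := Nat.mul_div_le h D
        have a3 : D * (s + j) ≤ D * (h / D + k) := Nat.mul_le_mul_left D (by omega)
        have a4 : D * (x / D + 1) = D * (x / D) + D := by ring
        have a5 : D * (h / D + k) = D * (h / D) + D * k := by ring
        have a6 : (k + 1) * D = D * k + D := by ring
        omega
      · intro p hp1 hp2
        by_contra hz
        push Not at hz
        rcases le_or_gt p w with h3 | h3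
        · have h4 : p ∣ D := by
            rw [hD]
            exact (Nat.Prime.dvd_primorial_iff hp1).2 h3
          have h5 : p ∣ 1 := by
            have h6 : (1 + D * (x / D + 1)) + D * (s + j) = 1 + D * (x / D + 1 + (s + j)) := by ring
            rw [h6] at hp2
            exact (Nat.dvd_add_left (h4.mul_right _)).1 hp2
          exact hp1.one_lt.ne' (Nat.dvd_one.1 h5)
        · refine hp p ?_ hp2
          unfold PR
          rw [mem_filter, mem_Icc]
          exact ⟨⟨by omega, hz⟩, hp1⟩
  refine (card_le_card h1).trans ((card_union_le _ _).trans ?_)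
  refine Nat.add_le_add_left ?_ _
  refine card_biUnion_le.trans ?_
  calc ∑ j ∈ range k, ((range (h / D + 2)).filter
        (fun s => (1 + D * (x / D + 1)) + D * (s + j) ∈ NR z x (h + ((k + 1) * D + 1)))).card
      ≤ ∑ _j ∈ range k, (NR z x (h + ((k + 1) * D + 1))).card := by
        refine sum_le_sum fun j _ => ?_
        refine card_le_card_of_injOn (fun s => (1 + D * (x / D + 1)) + D * (s + j)) ?_ ?_
        · intro s hs
          rw [mem_coe, mem_filter] at hs
          exact hs.2
        · intro a _ b _ hab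
          simp only at hab
          have : D * (a + j) = D * (b + j) := by omega
          have := Nat.eq_of_mul_eq_mul_left hD0 this
          omega
    _ = k * (NR z x (h + ((k + 1) * D + 1))).card := by
        rw [sum_const, card_range, smul_eq_mul]

theorem genT (P : ℕ → Prop) (w y k z D r M x h : ℕ) (hwy : w < y) (hD : D = primorial w) (hD2 : 2 ≤ D)
    (hP : ∀ n, 2 ≤ n → P n → x < c n → c n + (k + 1) * D ≤ c (n + 1))
    (hJ : ∀ a : ℕ, ∃ b : ℕ, b + y ≤ k ∧
      M ≤ ((range y).filter (fun j => ∀ p ∈ PR w y, ¬ p ∣ 1 + D * (a + b + j))).card) :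
    ((WT P x h).ncard : ℝ) ≤ (k + 1) * ((((h / D + 2 : ℕ) : ℝ) + k + (∏ p ∈ PR w y, p : ℕ)) *
        ((1 - ∏ p ∈ PR y z, (1 - 1 / (p : ℝ))) ^ M +
        2 * Real.exp (9 * (y * ∑ p ∈ PR y z, 1 / (p : ℝ))) / 3 ^ r)
      + 4 * (∏ p ∈ PR w y, p : ℕ) * (3 * ((z : ℝ) * y + 1)) ^ r) +
      k * ((NR z x (h + ((k + 1) * D + 1))).card : ℝ) := by
  have e2 := cntT P D k x h hD2 hP
  have e3 := two_setsT w k z D x h hD
  have hJ' : ∀ a : ℕ, ∃ b : ℕ, b + y ≤ k ∧
      M ≤ ((range y).filter (fun j => ∀ p ∈ PR w y, ¬ p ∣ (1 + D * (x / D + 1)) + D * (a + b + j))).card := by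
    intro a
    obtain ⟨b, hb, hM⟩ := hJ (x / D + 1 + a)
    refine ⟨b, hb, ?_⟩
    have : ∀ j, (1 + D * (x / D + 1)) + D * (a + b + j) = 1 + D * (x / D + 1 + a + b + j) := fun j => by ring
    simp only [this]
    exact hM
  have e4 := svT (1 + D * (x / D + 1)) w y k z D (h / D + 2) r M hwy hD hJ'
  have e6 : ((WT P x h).ncard : ℝ) ≤ (((range (h / D + 2)).filter
      (fun s => ∀ j < k, ∃ p ∈ PR w z, p ∣ (1 + D * (x / D + 1)) + D * (s + j))).card : ℝ) +
      k * ((NR z x (h + ((k + 1) * D + 1))).card : ℝ) := by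
    exact_mod_cast e2.trans e3
  linarith

end Pool.Agent.H89.CY
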